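import Mathlib
import Pool.Agent.Results.MP_309968_ag.BoundaryRays
import Pool.Agent.Results.MP_309968_ag.FewCoefficients
import Pool.Agent.Y939.XN.Sext

set_option autoImplicit false

/-!
# Nef classes with `D ^ 2` at least `700 M ^ 6 / (D H) ^ 4`

Let `p_1, …, p_n`, `n ≥ 4`, be very general points of the complex projective plane. Every class
`D = c H - ∑ x_i E_i` on the blow-up, with ARBITRARY real coefficients `0 ≤ x_i ≤ M`, `M > 0`, in
standard form (the sum of any three coefficients is at most `c`) and with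
`D ^ 2 = c ^ 2 - ∑ x_i ^ 2 ≥ 160 M ^ 4 / c ^ 2`, or with `c ≥ 24 M` and `D ^ 2 ≥ 700 M ^ 6 / c ^ 4`,
is nef; it is ample if the coefficients are positive and the inequalities are strict. Dually, every
plane curve of degree `e` with multiplicities `m_i ≤ W` at the points, irreducible or not, satisfies
`S - e ^ 2 ≤ 160 W ^ 4 / S` and, if `S ≥ 576 W ^ 2`, `S - e ^ 2 ≤ 700 W ^ 6 / S ^ 2`, where
`S = ∑ m_i ^ 2`.

The Harbourne-Hirschowitz conjecture (Q1) predicts that `D` is nef as soon as it is in standard form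
and `D ^ 2 ≥ 0`.

Idea: let `G` be irreducible of degree `e` with multiplicities `u_i ≤ μ` and with `D G < 0`, and let
`k = -G ^ 2`. Since `D` is in standard form, `K G > 0`, so `μ ≥ 4`. For `t = e / c` we have
`∑ (u_i - t x_i) ^ 2 + t ^ 2 D ^ 2 ≤ k`, and `k ≤ μ` by the inequality of Xu and Ein-Lazarsfeld, so
`μ` is about `t M` at most. The conjugates of `G` meet `G` nonnegatively, so two different `u_i`
differ by at least `√k`; so there are at most `1 + μ / √k` different ones, and by FewCoefficients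
`e ^ 2` is at most about `16 μ ^ 3 / √k`. So `t ^ 2 D ^ 2 ≤ k ≤ 256 μ ^ 6 / e ^ 4`, which is about
`256 t ^ 2 M ^ 6 / c ^ 4`.
-/

namespace Pool.Agent.Results.MP_309968_ag.SexticDistance

open Pool.Agent.W609.CR (Van Ord aff)
open Pool.Agent.TH167.SH (van_le van_zero van_of_mul exists_fam)
open Pool.Agent.Results.MP_309968_ag.BoundaryRays (MultGE curveClasses curvCone cone_le)

/-- the two descriptions of multiplicities -/
theorem mult_iff {n : ℕ} {p : Fin n → Fin 2 → ℂ} {F : MvPolynomial (Fin 3) ℂ} {e : ℕ}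
    (hF : F.IsHomogeneous e) (m : Fin n → ℕ) :
    (∀ i, MultGE (p i) F (m i)) ↔ ∀ i, Van (aff (p i)) (m i) F := by
  have h1 : (∀ i, Van (aff (p i)) (m i) F) ↔
      F ∈ Pool.Agent.W609.CR.VS (fun j => aff (p j)) m e := by
    rw [Pool.Agent.TH167.SH.mem_VS]
    exact ⟨fun h => ⟨hF, h⟩, fun h => h.2⟩
  rw [h1, Pool.Agent.W609.CR.vs_eq_forms, Pool.Agent.H248R5.mem_forms]
  have h2 : ∀ i, Pool.Agent.H248R5.tau (p i) F ∈ (MvPolynomial.idealOfVars (Fin 2) ℂ) ^ (m i) ↔
      MultGE (p i) F (m i) := by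
    intro i
    rw [MvPolynomial.mem_pow_idealOfVars_iff']
    constructor
    · intro h s hs
      by_contra hne
      refine (MvPolynomial.mem_support_iff.1 hs) (h s ?_)
      rw [Finsupp.degree_eq_sum, Fin.sum_univ_two]
      omega
    · intro h s hs
      by_contra hne
      have h3 := h s (MvPolynomial.mem_support_iff.2 hne)
      rw [Finsupp.degree_eq_sum, Fin.sum_univ_two] at hs
      omega
  constructor
  · exact fun h => ⟨hF, fun i => (h2 i).2 (h i)⟩
  · exact fun h i => (h2 i).1 (h.2 i)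

theorem exists_ord {a : Fin 2 → ℂ} {F : MvPolynomial (Fin 3) ℂ} {e : ℕ} (hF0 : F ≠ 0)
    (hF : F.IsHomogeneous e) : ∃ u, Ord (aff a) u F := by
  classical
  refine ⟨Nat.findGreatest (fun m => Van (aff a) m F) e,
    Nat.findGreatest_spec (m := 0) (P := fun m => Van (aff a) m F) (Nat.zero_le _)
      (van_zero _ _), fun h => ?_⟩
  have h1 := van_le hF0 hF h
  have h2 := Nat.le_findGreatest (P := fun m => Van (aff a) m F) h1 h
  omega

/-- the inequality for all forms -/
theorem form_le {n : ℕ} (hn : 4 ≤ n) : ∃ f : ℕ → MvPolynomial (Fin n × Fin 2) ℂ, (∀ k, f k ≠ 0) ∧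
    ∀ p : Fin n → Fin 2 → ℂ,
      (∀ k, MvPolynomial.eval (fun q : Fin n × Fin 2 => p q.1 q.2) (f k) ≠ 0) →
      ∀ (x : Fin n → ℝ) (c M : ℝ), 0 < M → (∀ i, 0 ≤ x i) → (∀ i, x i ≤ M) →
        (∀ i j k, i ≠ j → i ≠ k → j ≠ k → x i + x j + x k ≤ c) →
        (160 * M ^ 4 ≤ c ^ 2 * (c ^ 2 - ∑ i, x i ^ 2) ∨
          24 * M ≤ c ∧ 700 * M ^ 6 ≤ c ^ 4 * (c ^ 2 - ∑ i, x i ^ 2)) →
        ∀ (F : MvPolynomial (Fin 3) ℂ) (e : ℕ) (m : Fin n → ℕ), F.IsHomogeneous e → F ≠ 0 →
          (∀ i, MultGE (p i) F (m i)) → ∑ i, x i * (m i : ℝ) ≤ c * e := by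
  classical
  obtain ⟨r, rfl⟩ : ∃ r, n = r + 4 := ⟨n - 4, by omega⟩
  obtain ⟨f1, hf1, h1⟩ := exists_fam (Fin (r + 4) × Fin 2)
  obtain ⟨f2, hf2, h2⟩ := FewCoefficients.result (r + 4)
  refine ⟨fun k => f1 k * f2 k, fun k => mul_ne_zero (hf1 k) (hf2 k),
    fun p hp x c M hM hx0 hxM hstd h F => ?_⟩
  have hP := (h1 fun q => p q.1 q.2).1 fun k => by
    have := hp k
    rw [map_mul] at this
    exact left_ne_zero_of_mul this
  have hfew := (h2 p fun k => by
    have := hp k
    rw [map_mul] at this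
    exact right_ne_zero_of_mul this).2
  have key : F ≠ 0 → ∀ (e : ℕ) (m : Fin (r + 4) → ℕ), F.IsHomogeneous e →
      (∀ i, Van (aff (p i)) (m i) F) → ∑ i, x i * (m i : ℝ) ≤ c * e := by
    refine WfDvdMonoid.induction_on_irreducible (motive := fun F => F ≠ 0 → ∀ (e : ℕ)
      (m : Fin (r + 4) → ℕ), F.IsHomogeneous e →
      (∀ i, Van (aff (p i)) (m i) F) → ∑ i, x i * (m i : ℝ) ≤ c * e) F
      (fun h0 => absurd rfl h0) ?_ ?_
    · intro F hF hF0 e m hFe hm
      have he : e = 0 := by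
        obtain ⟨g, hg⟩ := hF.exists_right_inv
        have hg0 : g ≠ 0 := by
          rintro rfl
          rw [mul_zero] at hg
          exact zero_ne_one hg
        have h3 := MvPolynomial.totalDegree_mul_of_isDomain hF0 hg0
        rw [hg, hFe.totalDegree hF0, MvPolynomial.totalDegree_one] at h3
        omega
      have h3 : ∀ i, m i = 0 := fun i => by
        have := van_le hF0 hFe (hm i)
        omega
      rw [he]
      simp [h3]
    · intro F G hF0 hG ih hGF e m hFe hm
      have hGh := Pool.Agent.Chud.homog_of_dvd hFe hGF ⟨F, rfl⟩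
      have hFh := Pool.Agent.Chud.homog_of_dvd hFe hGF ⟨G, mul_comm _ _⟩
      have hdeg : e = G.totalDegree + F.totalDegree := by
        rw [← MvPolynomial.totalDegree_mul_of_isDomain hG.ne_zero hF0, hFe.totalDegree hGF]
      choose u hu using fun i => exists_ord (a := p i) hG.ne_zero hGh
      have hfewG := fun W hW =>
        hfew G _ W u hGh hG.ne_zero ((mult_iff hGh u).2 fun i => (hu i).1) hW
      have h3 : ∑ i, x i * (u i : ℝ) ≤ c * G.totalDegree := by
        rcases h with h | ⟨h24, h⟩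
        · exact Pool.Agent.Y939.XN.nef_irr hP hM hx0 hxM hstd h hG hGh hu fun W hW =>
            (hfewG W hW).2
        · exact Pool.Agent.Y939.XN.nef_irr6 hP hM hx0 hxM h24 h hG hGh hu fun W hW =>
            (hfewG W hW).1
      have h4 := ih hF0 _ (fun i => m i - u i) hFh fun i => by
        rcases le_total (u i) (m i) with h5 | h5
        · refine van_of_mul (hu i) ?_
          rw [Nat.add_sub_cancel' h5]
          exact hm i
        · rw [Nat.sub_eq_zero_of_le h5]
          exact van_zero _ _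
      have h5 : ∑ i, x i * (m i : ℝ) ≤
          ∑ i, (x i * (u i : ℝ) + x i * ((m i - u i : ℕ) : ℝ)) := by
        refine Finset.sum_le_sum fun i _ => ?_
        rw [← mul_add]
        refine mul_le_mul_of_nonneg_left ?_ (hx0 i)
        have : m i ≤ u i + (m i - u i) := by omega
        exact_mod_cast this
      rw [Finset.sum_add_distrib] at h5
      rw [hdeg]
      push_cast
      linarith
  exact fun e m hFe hF0 hm => key hF0 e m hFe ((mult_iff hFe m).1 hm)

/-- Part (1): for very general points `p` the class `c H - ∑ x_i E_i`, `0 ≤ x_i ≤ M`, in standard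
form with `c ^ 2 D ^ 2 ≥ 160 M ^ 4`, or with `c ≥ 24 M` and `c ^ 4 D ^ 2 ≥ 700 M ^ 6`, is
nonnegative on the closed cone of curves. Part (2): it is positive on the nonzero elements if the
`x_i` are positive and the inequalities are strict. Part (3): for every form of degree `e` with the
multiplicities `m_i ≤ W`, `S = ∑ m_i ^ 2`: `S ^ 2 ≤ S e ^ 2 + 160 W ^ 4`, and
`S ^ 3 ≤ S ^ 2 e ^ 2 + 700 W ^ 6` if `S ≥ 576 W ^ 2`. -/
theorem result (n : ℕ) (hn : 4 ≤ n) :
    ∃ f : ℕ → MvPolynomial (Fin n × Fin 2) ℂ, (∀ k, f k ≠ 0) ∧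
      ∀ p : Fin n → Fin 2 → ℂ,
        (∀ k, MvPolynomial.eval (fun q : Fin n × Fin 2 => p q.1 q.2) (f k) ≠ 0) →
        (∀ (x : Fin n → ℝ) (c M : ℝ), 0 < M → (∀ i, 0 ≤ x i) → (∀ i, x i ≤ M) →
          (∀ i j k, i ≠ j → i ≠ k → j ≠ k → x i + x j + x k ≤ c) →
          (160 * M ^ 4 ≤ c ^ 2 * (c ^ 2 - ∑ i, x i ^ 2) ∨
            24 * M ≤ c ∧ 700 * M ^ 6 ≤ c ^ 4 * (c ^ 2 - ∑ i, x i ^ 2)) →
          ∀ z ∈ curvCone p, 0 ≤ c * z.1 - ∑ i, x i * z.2 i) ∧
        (∀ (x : Fin n → ℝ) (c M : ℝ), 0 < M → (∀ i, 0 < x i) → (∀ i, x i ≤ M) →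
          (∀ i j k, i ≠ j → i ≠ k → j ≠ k → x i + x j + x k < c) →
          (160 * M ^ 4 < c ^ 2 * (c ^ 2 - ∑ i, x i ^ 2) ∨
            24 * M < c ∧ 700 * M ^ 6 < c ^ 4 * (c ^ 2 - ∑ i, x i ^ 2)) →
          ∀ z ∈ curvCone p, z ≠ 0 → 0 < c * z.1 - ∑ i, x i * z.2 i) ∧
        ∀ (F : MvPolynomial (Fin 3) ℂ) (e W : ℕ) (m : Fin n → ℕ), F.IsHomogeneous e → F ≠ 0 →
          (∀ i, MultGE (p i) F (m i)) → (∀ i, m i ≤ W) →
          (∑ i, m i ^ 2) ^ 2 ≤ (∑ i, m i ^ 2) * e ^ 2 + 160 * W ^ 4 ∧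
          (576 * W ^ 2 ≤ ∑ i, m i ^ 2 →
            (∑ i, m i ^ 2) ^ 3 ≤ (∑ i, m i ^ 2) ^ 2 * e ^ 2 + 700 * W ^ 6) := by
  classical
  obtain ⟨f, hf, hf'⟩ := form_le hn
  refine ⟨f, hf, fun p hp => ?_⟩
  have hA : ∀ (x : Fin n → ℝ) (c M : ℝ), 0 < M → (∀ i, 0 ≤ x i) → (∀ i, x i ≤ M) →
      (∀ i j k, i ≠ j → i ≠ k → j ≠ k → x i + x j + x k ≤ c) →
      (160 * M ^ 4 ≤ c ^ 2 * (c ^ 2 - ∑ i, x i ^ 2) ∨
        24 * M ≤ c ∧ 700 * M ^ 6 ≤ c ^ 4 * (c ^ 2 - ∑ i, x i ^ 2)) →
      ∀ z ∈ curvCone p, 0 ≤ c * z.1 - ∑ i, x i * z.2 i := by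
    intro x c M hM hx0 hxM hstd hc z hz
    have h := cone_le (p := p) (l := x) (g := id) (c := c) hx0
      fun F e m hF he hF0 hm => by
        have h1 := hf' p hp x c M hM hx0 hxM hstd hc F e m hF hF0 hm
        simp only [id]
        linarith
    have h2 := h z hz
    simp only [id] at h2
    linarith
  refine ⟨hA, fun x c M hM hx0 hxM hstd hc z hz hz0 => ?_, fun F e W m hF hF0 hm hW => ?_⟩
  · -- the class is in the interior of the nef cone
    have hz1 : 0 ≤ z.1 := by
      have h1 := hA 0 6 1 one_pos (fun i => le_rfl) (fun i => zero_le_one)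
        (fun _ _ _ _ _ _ => by simp) (Or.inl (by simp; norm_num)) z hz
      simp only [Pi.zero_apply, zero_mul, Finset.sum_const_zero, sub_zero] at h1
      linarith
    obtain ⟨s, hs⟩ : ∃ s : Fin n → ℝ, s = fun i => if 0 ≤ z.2 i then 1 else -1 := ⟨_, rfl⟩
    have hs1 : ∀ i, s i * z.2 i = |z.2 i| := by
      intro i
      rw [hs]
      by_cases h : 0 ≤ z.2 i
      · simp only [if_pos h, one_mul, abs_of_nonneg h]
      · simp only [if_neg h, abs_of_neg (not_le.1 h)]
        ring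
    have hs2 : ∀ i, -1 ≤ s i ∧ s i ≤ 1 := by
      intro i
      rw [hs]
      by_cases h : 0 ≤ z.2 i
      · simp only [if_pos h]; norm_num
      · simp only [if_neg h]; norm_num
    -- a small perturbation
    have hcont : ∀ (u : ℝ → ℝ) (v : ℝ → ℝ), Continuous u → Continuous v → u 0 < v 0 →
        ∀ᶠ t in nhdsWithin (0 : ℝ) (Set.Ioi 0), u t < v t := by
      intro u v hu hv h
      have h1 : ∀ᶠ t in nhds (0 : ℝ), u t < v t :=
        hu.continuousAt.eventually_lt hv.continuousAt h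
      exact nhdsWithin_le_nhds h1
    have e1 : ∀ᶠ t in nhdsWithin (0 : ℝ) (Set.Ioi 0), ∀ i j k, i ≠ j → i ≠ k → j ≠ k →
        x i + x j + x k + 3 * t < c - t := by
      rw [Filter.eventually_all]
      intro i
      rw [Filter.eventually_all]
      intro j
      rw [Filter.eventually_all]
      intro k
      by_cases hij : i = j
      · exact Filter.Eventually.of_forall fun t h => absurd hij h
      by_cases hik : i = k
      · exact Filter.Eventually.of_forall fun t _ h => absurd hik h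
      by_cases hjk : j = k
      · exact Filter.Eventually.of_forall fun t _ _ h => absurd hjk h
      have h1 := hcont (fun t => x i + x j + x k + 3 * t) (fun t => c - t) (by fun_prop)
        (by fun_prop) (by simpa using hstd i j k hij hik hjk)
      exact h1.mono fun t ht _ _ _ => ht
    have e2 : ∀ᶠ t in nhdsWithin (0 : ℝ) (Set.Ioi 0),
        (160 * (M + t) ^ 4 ≤ (c - t) ^ 2 * ((c - t) ^ 2 - ∑ i, (x i + t * s i) ^ 2) ∨
        24 * (M + t) ≤ c - t ∧
          700 * (M + t) ^ 6 ≤ (c - t) ^ 4 * ((c - t) ^ 2 - ∑ i, (x i + t * s i) ^ 2)) := by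
      rcases hc with hc | ⟨hc1, hc2⟩
      · have h1 := hcont (fun t => 160 * (M + t) ^ 4)
          (fun t => (c - t) ^ 2 * ((c - t) ^ 2 - ∑ i, (x i + t * s i) ^ 2)) (by fun_prop)
          (by fun_prop) (by simpa using hc)
        exact h1.mono fun t ht => Or.inl ht.le
      · have h1 := hcont (fun t => 24 * (M + t)) (fun t => c - t) (by fun_prop)
          (by fun_prop) (by simpa using hc1)
        have h2 := hcont (fun t => 700 * (M + t) ^ 6)
          (fun t => (c - t) ^ 4 * ((c - t) ^ 2 - ∑ i, (x i + t * s i) ^ 2)) (by fun_prop)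
          (by fun_prop) (by simpa using hc2)
        exact (h1.and h2).mono fun t ht => Or.inr ⟨ht.1.le, ht.2.le⟩
    have e3 : ∀ᶠ t in nhdsWithin (0 : ℝ) (Set.Ioi 0), ∀ i, t < x i := by
      rw [Filter.eventually_all]
      intro i
      exact hcont (fun t => t) (fun _ => x i) continuous_id continuous_const (hx0 i)
    obtain ⟨t, ht1, ht2, ht3, ht0⟩ := (e1.and (e2.and (e3.and
      (eventually_mem_nhdsWithin)))).exists
    have ht0' : 0 < t := ht0
    have hts : ∀ i, t * s i ≤ t := fun i => by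
      have h2 := mul_le_mul_of_nonneg_left (hs2 i).2 ht0'.le
      linarith
    have hts' : ∀ i, -t ≤ t * s i := fun i => by
      have h2 := mul_le_mul_of_nonneg_left (hs2 i).1 ht0'.le
      linarith
    have h1 := hA (fun i => x i + t * s i) (c - t) (M + t) (by linarith)
      (fun i => by
        have h2 := hts' i
        have h3 := ht3 i
        linarith)
      (fun i => by
        have h2 := hts i
        have h3 := hxM i
        linarith)
      (fun i j k hij hik hjk => by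
        have h2 := ht1 i j k hij hik hjk
        have h3 := hts i
        have h4 := hts j
        have h5 := hts k
        linarith) ht2 z hz
    have h2 : ∑ i, (x i + t * s i) * z.2 i = ∑ i, x i * z.2 i + t * ∑ i, |z.2 i| := by
      rw [Finset.mul_sum, ← Finset.sum_add_distrib]
      refine Finset.sum_congr rfl fun i _ => ?_
      rw [← hs1 i]
      ring
    rw [h2] at h1
    have h3 : 0 < z.1 + ∑ i, |z.2 i| := by
      have h4 : 0 ≤ ∑ i, |z.2 i| := Finset.sum_nonneg fun i _ => abs_nonneg _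
      rcases hz1.eq_or_lt with h5 | h5
      · rw [← h5, zero_add]
        refine lt_of_le_of_ne h4 fun h6 => hz0 ?_
        have h7 := (Finset.sum_eq_zero_iff_of_nonneg fun i _ => abs_nonneg (z.2 i)).1 h6.symm
        refine Prod.ext h5.symm (funext fun i => ?_)
        exact abs_eq_zero.1 (h7 i (Finset.mem_univ _))
      · linarith
    have h4 := mul_pos ht0' h3
    linarith
  · -- the dual statements
    rcases Nat.eq_zero_or_pos W with h0 | h0
    · have h1 : ∀ i, m i = 0 := fun i => by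
        have := hW i
        omega
      have h2 : ∑ i, m i ^ 2 = 0 := Finset.sum_eq_zero fun i _ => by rw [h1 i]; norm_num
      rw [h2]
      exact ⟨by positivity, fun _ => by positivity⟩
    have hWR : (0 : ℝ) < W := by exact_mod_cast h0
    obtain ⟨S, hS⟩ : ∃ S : ℝ, S = ∑ i, (m i : ℝ) ^ 2 := ⟨_, rfl⟩
    have hS0 : 0 ≤ S := by rw [hS]; positivity
    have hW4 : 0 < (W : ℝ) ^ 4 := by positivity
    have hW2 : 0 < (W : ℝ) ^ 2 := by positivity
    have e9 : (3 * (W : ℝ)) ^ 2 = 9 * (W : ℝ) ^ 2 := by ring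
    -- the inequality for the class with the coefficients `m_i`
    have key : ∀ R : ℝ, (3 * (W : ℝ)) ^ 2 ≤ R →
        (160 * (W : ℝ) ^ 4 ≤ R * (R - S) ∨
          24 * (W : ℝ) ≤ √R ∧ 700 * (W : ℝ) ^ 6 ≤ R ^ 2 * (R - S)) →
        S ^ 2 ≤ R * (e : ℝ) ^ 2 := by
      intro R hR9 hR
      have hR0 : 0 ≤ R := le_trans (by positivity) hR9
      have hs : √R ^ 2 = R := Real.sq_sqrt hR0
      have hs4 : √R ^ 4 = R ^ 2 := by
        have : √R ^ 4 = (√R ^ 2) ^ 2 := by ring
        rw [this, hs]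
      have h1 := hf' p hp (fun i => (m i : ℝ)) (√R) W hWR (fun i => Nat.cast_nonneg _)
        (fun i => by exact_mod_cast hW i)
        (fun i j k _ _ _ => by
          have h2 : 3 * (W : ℝ) ≤ √R := Real.le_sqrt_of_sq_le hR9
          have h3 : (m i : ℝ) ≤ W := by exact_mod_cast hW i
          have h4 : (m j : ℝ) ≤ W := by exact_mod_cast hW j
          have h5 : (m k : ℝ) ≤ W := by exact_mod_cast hW k
          linarith)
        (by rw [hs4, hs, ← hS]; exact hR) F e m hF hF0 hm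
      have h2 : ∑ i, (m i : ℝ) * (m i : ℝ) = S := by
        rw [hS]
        exact Finset.sum_congr rfl fun i _ => by ring
      rw [h2] at h1
      have h4 : S ^ 2 ≤ (√R * e) ^ 2 := pow_le_pow_left₀ hS0 h1 2
      rwa [mul_pow, hs] at h4
    constructor
    · obtain ⟨T, hT⟩ : ∃ T : ℝ, T = √(S ^ 2 + 640 * (W : ℝ) ^ 4) := ⟨_, rfl⟩
      have hT0 : 0 ≤ T := by rw [hT]; exact Real.sqrt_nonneg _
      have hT2 : T ^ 2 = S ^ 2 + 640 * (W : ℝ) ^ 4 := by
        rw [hT]
        exact Real.sq_sqrt (by positivity)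
      have hT3 : 18 * (W : ℝ) ^ 2 ≤ T := by
        rw [hT]
        refine Real.le_sqrt_of_sq_le ?_
        have e1 : (18 * (W : ℝ) ^ 2) ^ 2 = 324 * (W : ℝ) ^ 4 := by ring
        have := sq_nonneg S
        linarith
      obtain ⟨R, hR⟩ : ∃ R : ℝ, R = (S + T) / 2 := ⟨_, rfl⟩
      have hR1 : R * (R - S) = 160 * (W : ℝ) ^ 4 := by
        have e1 : R * (R - S) = (T ^ 2 - S ^ 2) / 4 := by rw [hR]; ring
        rw [e1, hT2]
        ring
      have hR9 : (3 * (W : ℝ)) ^ 2 ≤ R := by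
        rw [e9]
        linarith
      have hRS : S ≤ R := by
        have h1 : S ≤ T := by
          rw [hT]
          exact Real.le_sqrt_of_sq_le (by linarith)
        linarith
      have h3 := key R hR9 (Or.inl hR1.ge)
      have h4 : S ^ 2 ≤ S * (e : ℝ) ^ 2 + 160 * (W : ℝ) ^ 4 := by
        rcases le_or_gt ((e : ℝ) ^ 2) R with h5 | h5
        · have h6 : (R - S) * (e : ℝ) ^ 2 ≤ (R - S) * R :=
            mul_le_mul_of_nonneg_left h5 (by linarith)
          have e1 : (R - S) * R = 160 * (W : ℝ) ^ 4 := by rw [← hR1]; ring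
          have e2 : R * (e : ℝ) ^ 2 = S * (e : ℝ) ^ 2 + (R - S) * (e : ℝ) ^ 2 := by ring
          linarith
        · have h6 : S * S ≤ S * (e : ℝ) ^ 2 := mul_le_mul_of_nonneg_left (by linarith) hS0
          have e1 : S ^ 2 = S * S := by ring
          linarith
      rw [hS] at h4
      exact_mod_cast h4
    · intro h576
      have h576R : 576 * (W : ℝ) ^ 2 ≤ S := by
        rw [hS]
        exact_mod_cast h576
      have hSp : 0 < S := by linarith
      obtain ⟨A, hA'⟩ : ∃ A : ℝ, A = 700 * (W : ℝ) ^ 6 := ⟨_, rfl⟩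
      have hA0 : 0 ≤ A := by rw [hA']; positivity
      obtain ⟨R, hR⟩ : ∃ R : ℝ, R = S + A / S ^ 2 := ⟨_, rfl⟩
      have hAS : 0 ≤ A / S ^ 2 := by positivity
      have hRS : S ≤ R := by linarith
      have hAR : (R - S) * S ^ 2 = A := by
        rw [hR]
        field_simp
        ring
      have h3 := key R (by rw [e9]; linarith) (Or.inr ⟨by
        refine Real.le_sqrt_of_sq_le ?_
        have e1 : (24 * (W : ℝ)) ^ 2 = 576 * (W : ℝ) ^ 2 := by ring
        linarith, by
        rw [← hA', ← hAR]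
        have h4 : S ^ 2 ≤ R ^ 2 := pow_le_pow_left₀ hS0 hRS 2
        have h5 := mul_le_mul_of_nonneg_left h4 (sub_nonneg.2 hRS)
        linarith⟩)
      have h4 : S ^ 3 ≤ S ^ 2 * (e : ℝ) ^ 2 + A := by
        rcases le_or_gt S ((e : ℝ) ^ 2) with h5 | h5
        · have h6 : S ^ 2 * S ≤ S ^ 2 * (e : ℝ) ^ 2 := mul_le_mul_of_nonneg_left h5 (sq_nonneg _)
          have e1 : S ^ 3 = S ^ 2 * S := by ring
          linarith
        · have h6 : S ^ 2 * S ^ 2 ≤ S ^ 2 * (R * (e : ℝ) ^ 2) :=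
            mul_le_mul_of_nonneg_left h3 (sq_nonneg _)
          have e1 : S ^ 2 * (R * (e : ℝ) ^ 2) = S ^ 3 * (e : ℝ) ^ 2 +
              ((R - S) * S ^ 2) * (e : ℝ) ^ 2 := by ring
          rw [e1, hAR] at h6
          have h7 : A * (e : ℝ) ^ 2 ≤ A * S := mul_le_mul_of_nonneg_left h5.le hA0
          have h8 : S * S ^ 3 ≤ S * (S ^ 2 * (e : ℝ) ^ 2 + A) := by
            have e2 : S * S ^ 3 = S ^ 2 * S ^ 2 := by ring
            have e3 : S * (S ^ 2 * (e : ℝ) ^ 2 + A) = S ^ 3 * (e : ℝ) ^ 2 + A * S := by ring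
            rw [e2, e3]
            linarith
          exact le_of_mul_le_mul_left h8 hSp
      rw [hS, hA'] at h4
      exact_mod_cast h4

end Pool.Agent.Results.MP_309968_ag.SexticDistance
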